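import Pool.Agent.H86.KrC

set_option autoImplicit false

namespace Pool.Agent.Results.MP_45ac3c_an.SharpGrowth

open Pool.Agent.H86.Kr

theorem result :
    (∀ α : ℝ, 1 ≤ α → IsLeast (Adm α) α) ∧ (∀ α : ℝ, 1 < α → Att α α) ∧
    (∀ (H : Type*) [NormedAddCommGroup H] [InnerProductSpace ℂ H] [CompleteSpace H]
      (T : H →L[ℂ] H), RC 1 T →
        ∃ ε : ℝ, 0 < ε ∧ ∃ C : ℝ, ∀ n : ℕ, ‖T ^ n‖ ≤ C * (1 + n : ℝ) ^ (1 - ε)) ∧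
    (∀ s : ℝ, 0 ≤ s → s < 1 → Att 1 s) :=
  ⟨fun _ h => least h, fun α h => ⟨_, _, _, inferInstance, _, sharp h, TT_norm (by linarith)⟩,
    fun _ _ _ _ _ h => sub2 h,
    fun _ h0 h1 => ⟨_, _, _, inferInstance, _, TT_RC h0 le_rfl (K_one h0 h1), TT_norm h0⟩⟩

end Pool.Agent.Results.MP_45ac3c_an.SharpGrowth
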